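import Pool.Agent.Helper89.Vol.Goals

/-! # MP_cd13d2_co : packet TW (twins) -/

set_option autoImplicit false

namespace Pool.Agent.Helper34.Vol.PkTW

open Pool.Agent.Helper89.Vol

/-- the ordering property of a permutation and signs -/
def Pp (D : Fin 6 → Fin 6 → ℝ) (σ : Equiv.Perm (Fin 6)) (s : Fin 6 → ℝ) : Prop :=
  (∀ i, s i = 1 ∨ s i = -1) ∧ ∀ i j, i < j → 0 < s i * s j * D (σ i) (σ j)

/-- the rotated signs -/
def rs (s : Fin 6 → ℝ) : Fin 6 → ℝ := ![s 1, s 2, s 3, s 4, s 5, -s 0]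

/-- the rotated permutation -/
def rp (σ : Equiv.Perm (Fin 6)) : Equiv.Perm (Fin 6) := (finRotate 6).trans σ

lemma rp0 (σ : Equiv.Perm (Fin 6)) : rp σ 0 = σ 1 := rfl
lemma rp1 (σ : Equiv.Perm (Fin 6)) : rp σ 1 = σ 2 := rfl
lemma rp2 (σ : Equiv.Perm (Fin 6)) : rp σ 2 = σ 3 := rfl
lemma rp3 (σ : Equiv.Perm (Fin 6)) : rp σ 3 = σ 4 := rfl
lemma rp4 (σ : Equiv.Perm (Fin 6)) : rp σ 4 = σ 5 := rfl
lemma rp5 (σ : Equiv.Perm (Fin 6)) : rp σ 5 = σ 0 := rfl

lemma rot {D : Fin 6 → Fin 6 → ℝ} (hD : ∀ i j, D i j = -D j i) {σ : Equiv.Perm (Fin 6)}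
    {s : Fin 6 → ℝ} (h : Pp D σ s) : Pp D (rp σ) (rs s) := by
  obtain ⟨h1, h2⟩ := h
  refine ⟨?_, ?_⟩
  · intro i
    fin_cases i
    · exact h1 1
    · exact h1 2
    · exact h1 3
    · exact h1 4
    · exact h1 5
    · rcases h1 0 with h | h
      · right
        change -s 0 = -1
        rw [h]
      · left
        change -s 0 = 1
        rw [h]
        norm_num
  · have e : ∀ i : Fin 6, 0 < i → 0 < s i * -s 0 * D (σ i) (σ 0) := by
      intro i hi
      have := h2 0 i hi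
      rw [hD (σ i) (σ 0)]
      nlinarith
    intro i j hij
    fin_cases i <;> fin_cases j <;> first
      | exact absurd hij (by decide)
      | exact h2 1 2 (by decide)
      | exact h2 1 3 (by decide)
      | exact h2 1 4 (by decide)
      | exact h2 1 5 (by decide)
      | exact h2 2 3 (by decide)
      | exact h2 2 4 (by decide)
      | exact h2 2 5 (by decide)
      | exact h2 3 4 (by decide)
      | exact h2 3 5 (by decide)
      | exact h2 4 5 (by decide)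
      | exact e 1 (by decide)
      | exact e 2 (by decide)
      | exact e 3 (by decide)
      | exact e 4 (by decide)
      | exact e 5 (by decide)

lemma neg_of {a b : ℝ} (ha : a = 1 ∨ a = -1) (hb : b = 1 ∨ b = -1) (h : a ≠ b) : b = -a := by
  rcases ha with rfl | rfl <;> rcases hb with rfl | rfl
  · exact absurd rfl h
  · rfl
  · norm_num
  · exact absurd rfl h

lemma key {D : Fin 6 → Fin 6 → ℝ} (hD : ∀ i j, D i j = -D j i) {σ : Equiv.Perm (Fin 6)}
    {s : Fin 6 → ℝ} (h : Pp D σ s) : ∃ σ' s', Pp D σ' s' ∧ s' 0 = s' 1 := by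
  by_contra hc
  push Not at hc
  have g1 := rot hD h
  have g2 := rot hD g1
  have g3 := rot hD g2
  have g4 := rot hD g3
  have g5 := rot hD g4
  have c0 : s 0 ≠ s 1 := hc _ _ h
  have c1 : s 1 ≠ s 2 := hc _ _ g1
  have c2 : s 2 ≠ s 3 := hc _ _ g2
  have c3 : s 3 ≠ s 4 := hc _ _ g3
  have c4 : s 4 ≠ s 5 := hc _ _ g4
  have c5 : s 5 ≠ -s 0 := hc _ _ g5
  have s1 := neg_of (h.1 0) (h.1 1) c0
  have s2 := neg_of (h.1 1) (h.1 2) c1
  have s3 := neg_of (h.1 2) (h.1 3) c2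
  have s4 := neg_of (h.1 3) (h.1 4) c3
  have s5 := neg_of (h.1 4) (h.1 5) c4
  apply c5
  linarith

/-- Packet TW. -/
theorem thm (h : G_SRT) : G_TW := by
  intro D hD h0 hP
  obtain ⟨σ, s, hs, hp⟩ := h D hD h0 hP
  obtain ⟨σ', s', ⟨h1, h2⟩, h3⟩ := key hD (σ := σ) (s := s) ⟨hs, hp⟩
  have hsq : s' 0 * s' 0 = 1 := by
    rcases h1 0 with h | h <;> rw [h] <;> norm_num
  refine ⟨σ', fun i => s' 0 * s' i, ?_, hsq, ?_, ?_⟩
  · intro i
    rcases h1 0 with h | h <;> rcases h1 i with h' | h' <;> simp only [h, h'] <;> norm_num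
  · change s' 0 * s' 1 = 1
    rw [← h3]
    exact hsq
  · intro i j hij
    have := h2 i j hij
    have e : s' 0 * s' i * (s' 0 * s' j) * D (σ' i) (σ' j) =
        (s' 0 * s' 0) * (s' i * s' j * D (σ' i) (σ' j)) := by ring
    change 0 < s' 0 * s' i * (s' 0 * s' j) * D (σ' i) (σ' j)
    rw [e, hsq, one_mul]
    exact this

end Pool.Agent.Helper34.Vol.PkTW
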